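import Pool.Agent.Helper16.CD.Assembly
import Pool.Agent.Helper83.CD.X5

/-!
# The conformal dimension of CLE carpets can be smaller than their Hausdorff dimension

For the Brownian loop soup of small intensity in the unit disc, the set of points of the closed disc
that are surrounded by no cluster of loops (by Sheffield and Werner: the carpet of the conformal loop
ensemble with parameter `κ ∈ (8/3, 4]`, `κ → 8/3` as the intensity tends to `0`) has, with positive
probability, a quasisymmetric image of strictly smaller Hausdorff dimension.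
-/

set_option autoImplicit false

namespace Pool.Agent.Results.MP_c9b794_pr.CarpetDimension

open MeasureTheory ProbabilityTheory Metric Set
open scoped ENNReal NNReal unitInterval

/-! ### deterministic notions -/

/-- quasisymmetric homeomorphisms -/
def IsQuasisymmetric {X Y : Type} [MetricSpace X] [MetricSpace Y] (f : X → Y) : Prop :=
  IsHomeomorph f ∧ ∃ η : ℝ≥0 ≃ₜ ℝ≥0, ∀ x a b : X, ∀ t : ℝ≥0,
    nndist x a ≤ t * nndist x b → nndist (f x) (f a) ≤ η t * nndist (f x) (f b)

/-- the filling of `A`: the points whose component in the complement of `A` is bounded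
(this includes the points of `A`, for which `connectedComponentIn` is empty) -/
def filling (A : Set ℂ) : Set ℂ := {z | Bornology.IsBounded (connectedComponentIn Aᶜ z)}

/-- the cluster of the loop `K` in the family `S`: the union of the members of `S` that are joined
to `K` by a finite chain of members of `S`, consecutive ones intersecting -/
def cluster (S : Set (Set ℂ)) (K : Set ℂ) : Set ℂ :=
  ⋃₀ {K' | K' ∈ S ∧
    Relation.ReflTransGen (fun A B => A ∈ S ∧ B ∈ S ∧ (A ∩ B).Nonempty) K K'}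

/-- the carpet of a family `S` of loops in the disc: the points of the closed unit disc that are
not inside (the filled closure of) any cluster -/
def carpet (S : Set (Set ℂ)) : Set ℂ :=
  {z | z ∈ closedBall 0 1 ∧ ∀ K ∈ S, z ∉ interior (filling (closure (cluster S K)))}

/-! ### Brownian loops -/

section

variable {Ω : Type} [MeasurableSpace Ω]

/-- planar Brownian motion: two independent real Brownian motions with continuous paths -/
structure IsPlanarBM (P : Measure Ω) (B₁ B₂ : ℝ≥0 → Ω → ℝ) : Prop where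
  bm₁ : IsPreBrownianReal B₁ P
  bm₂ : IsPreBrownianReal B₂ P
  indep : IndepFun (fun ω t => B₁ t ω) (fun ω t => B₂ t ω) P
  meas₁ : ∀ t, Measurable (B₁ t)
  meas₂ : ∀ t, Measurable (B₂ t)
  cont₁ : ∀ ω, Continuous fun t => B₁ t ω
  cont₂ : ∀ ω, Continuous fun t => B₂ t ω

/-- the bridge of `B` at time `t ∈ [0, 1]` -/
noncomputable def bridge {Ω : Type} (B : ℝ≥0 → Ω → ℝ) (ω : Ω) (t : I) : ℝ :=
  B (Real.toNNReal t) ω - B 0 ω - t * (B 1 ω - B 0 ω)

/-- the loop `z + √t β[0, 1]` with root `z`, duration `t`, `β` the planar bridge at the sample point -/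
noncomputable def loop {Ω : Type} (B₁ B₂ : ℝ≥0 → Ω → ℝ) (q : ℂ × ℝ × Ω) : Set ℂ :=
  range fun s : I => q.1 + √q.2.1 * (⟨bridge B₁ q.2.2 s, bridge B₂ q.2.2 s⟩ : ℂ)

/-- intensity of the rooted Brownian loop measure: `dz dt / (2 π t²) P(dω)` on `ℂ × (0, ∞) × Ω` -/
noncomputable def loopMeasure (P : Measure Ω) : Measure (ℂ × ℝ × Ω) :=
  volume.prod (((volume.restrict (Ioi (0 : ℝ))).withDensity
    fun t => ENNReal.ofReal (1 / (2 * Real.pi * t ^ 2))).prod P)

/-- the half open square `2^-k (v + [0, 1)²)`, `i = (k, v)` -/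
def square (i : ℕ × ℤ × ℤ) : Set ℂ :=
  {z | (1 / 2 : ℝ) ^ i.1 * i.2.1 ≤ z.re ∧ z.re < (1 / 2 : ℝ) ^ i.1 * (i.2.1 + 1) ∧
    (1 / 2 : ℝ) ^ i.1 * i.2.2 ≤ z.im ∧ z.im < (1 / 2 : ℝ) ^ i.1 * (i.2.2 + 1)}

/-- a countable partition of `ℂ × (0, ∞) × Ω` into parts of finite intensity: roots in a dyadic
square `2^-k (v + [0,1)²)` and durations in `[4^-k, 4^(1-k))`, and roots in `v + [0,1)²` and
durations in `[4, ∞)` -/
def part (Ω : Type) : (ℕ × ℤ × ℤ) ⊕ (ℤ × ℤ) → Set (ℂ × ℝ × Ω)
  | Sum.inl i => square i ×ˢ (Ico ((1 / 4 : ℝ) ^ i.1) (4 * (1 / 4 : ℝ) ^ i.1) ×ˢ univ)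
  | Sum.inr v => square (0, v) ×ˢ (Ici (4 : ℝ) ×ˢ univ)

/-- a configuration gives to every part a number of points and a sequence; the points of the part
are the first ones of the sequence -/
abbrev Config (Ω : Type) : Type := (ℕ × ℤ × ℤ) ⊕ (ℤ × ℤ) → ℕ × (ℕ → ℂ × ℝ × Ω)

/-- the Poisson point process with intensity `c • loopMeasure P`: independently in each part, a
Poisson number of independent points with the normalised intensity -/
noncomputable def loopSoup (c : ℝ≥0) (P : Measure Ω) : Measure (Config Ω) :=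
  Measure.infinitePi fun i =>
    (poissonMeasure (c * (loopMeasure P (part Ω i)).toNNReal)).prod
      (Measure.infinitePi fun _ : ℕ => (loopMeasure P)[|part Ω i])

/-- the loops of a configuration that are contained in the open unit disc -/
def loops {Ω : Type} (B₁ B₂ : ℝ≥0 → Ω → ℝ) (w : Config Ω) : Set (Set ℂ) :=
  {K | ∃ i, ∃ j < (w i).1, K = loop B₁ B₂ ((w i).2 j) ∧ K ⊆ ball 0 1}

end

/-- planar Brownian motion exists, and for each one the carpet of the Brownian loop soup of small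
intensity has, with positive probability, a quasisymmetric image of strictly smaller Hausdorff
dimension -/
theorem result :
    (∃ (Ω : Type) (_ : MeasurableSpace Ω) (P : Measure Ω) (B₁ B₂ : ℝ≥0 → Ω → ℝ),
      IsProbabilityMeasure P ∧ IsPlanarBM P B₁ B₂) ∧
    ∀ (Ω : Type) [MeasurableSpace Ω] (P : Measure Ω) [IsProbabilityMeasure P]
      (B₁ B₂ : ℝ≥0 → Ω → ℝ), IsPlanarBM P B₁ B₂ →
      ∃ c₀ : ℝ≥0, 0 < c₀ ∧ ∀ c : ℝ≥0, 0 < c → c < c₀ →
        ∃ A : Set (Config Ω), MeasurableSet A ∧ 0 < loopSoup c P A ∧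
          ∀ w ∈ A, ∃ (Y : Type) (_ : MetricSpace Y) (f : carpet (loops B₁ B₂ w) → Y),
            IsQuasisymmetric f ∧ dimH (univ : Set Y) < dimH (carpet (loops B₁ B₂ w)) := by
  refine ⟨?_, ?_⟩
  · obtain ⟨Ω, hm, P, B₁, B₂, hP, hB⟩ := Pool.Agent.Helper83.CD.exists_planar
    exact ⟨Ω, hm, P, B₁, B₂, hP, ⟨hB.bm₁, hB.bm₂, hB.indep, hB.meas₁, hB.meas₂, hB.cont₁, hB.cont₂⟩⟩
  · intro Ω _ P _ B₁ B₂ hB
    obtain ⟨c₀, hc₀, h⟩ := Pool.Agent.Helper16.CD.final_proved Ω P B₁ B₂
      ⟨hB.bm₁, hB.bm₂, hB.indep, hB.meas₁, hB.meas₂, hB.cont₁, hB.cont₂⟩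
    refine ⟨c₀, hc₀, fun c hc hc' => ?_⟩
    obtain ⟨A, hA, hpos, hw⟩ := h c hc hc'
    refine ⟨A, hA, hpos, fun w hwA => ?_⟩
    obtain ⟨Y, hY, f, hf, hd⟩ := hw w hwA
    have hl : Pool.Agent.Helper16.CD.loopsC B₁ B₂ w = loops B₁ B₂ w := by
      ext K
      constructor
      · rintro ⟨⟨i, q⟩, ⟨j, hj, hq⟩, hK⟩
        refine ⟨i, j, hj, ?_⟩
        have hq' : (w i).2 j = q := hq
        rw [hq']
        exact hK
      · rintro ⟨i, j, hj, hK⟩
        exact ⟨(i, (w i).2 j), ⟨j, hj, rfl⟩, hK⟩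
    have hc : Pool.Agent.Helper16.CD.carpetC B₁ B₂ w = carpet (loops B₁ B₂ w) := by
      unfold Pool.Agent.Helper16.CD.carpetC
      rw [hl]
      rfl
    rw [← hc]
    exact ⟨Y, hY, f, hf, hd⟩

end Pool.Agent.Results.MP_c9b794_pr.CarpetDimension
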